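import Mathlib

set_option autoImplicit false
open Filter Topology Finset intervalIntegral

namespace Pool.Agent.H.MP_d888c7_an

noncomputable def om (m x : ℝ) : ℝ := 1 - m + m * (1 - x) ^ 3

noncomputable def Dn (n : ℕ) : ℝ := ((n : ℝ) + 1) * (n + 2) * (n + 3)

lemma Dn_pos (n : ℕ) : 0 < Dn n := by unfold Dn; positivity

lemma mom (m : ℝ) (n : ℕ) :
    ∫ x in (0 : ℝ)..1, om m x * x ^ n = (1 - m + 6 * m / Dn (n + 1)) / (n + 1) := by
  have : ∀ x : ℝ, om m x * x ^ n =
      x ^ n - 3 * m * x ^ (n + 1) + 3 * m * x ^ (n + 2) - m * x ^ (n + 3) := fun x => by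
    unfold om; ring
  simp only [this]
  rw [integral_sub, integral_add, integral_sub, integral_const_mul, integral_const_mul,
    integral_const_mul, integral_pow, integral_pow, integral_pow, integral_pow]
  · unfold Dn
    push_cast
    field_simp
    ring
  all_goals exact Continuous.intervalIntegrable (by fun_prop) _ _

lemma ker_nat (n : ℕ) : ∫ t in (0 : ℝ)..1, (1 - t) ^ 2 / 2 * t ^ n = 1 / Dn n := by
  have : ∀ x : ℝ, (1 - x) ^ 2 / 2 * x ^ n =
      1 / 2 * x ^ n - x ^ (n + 1) + 1 / 2 * x ^ (n + 2) := fun x => by ring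
  simp only [this]
  rw [integral_add, integral_sub, integral_const_mul, integral_const_mul,
    integral_pow, integral_pow, integral_pow]
  · unfold Dn
    push_cast
    field_simp
    ring
  all_goals exact Continuous.intervalIntegrable (by fun_prop) _ _

noncomputable def s0 : ℂ := 1 + (√26 : ℝ) * Complex.I

lemma s0_re : s0.re = 1 := by simp [s0]

lemma s0_D : (s0 + 1) * (s0 + 2) * (s0 + 3) = -210 := by
  have h : ((√26 : ℝ) : ℂ) ^ 2 = 26 := by
    rw [← Complex.ofReal_pow, Real.sq_sqrt (by norm_num)]; norm_num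
  unfold s0
  generalize ((√26 : ℝ) : ℂ) = w at h
  linear_combination (w * Complex.I ^ 3 + 9 * Complex.I ^ 2) * h +
    (26 * w * Complex.I + 234) * Complex.I_sq

lemma ker_c : ∫ t in (0 : ℝ)..1, (((1 - t) ^ 2 / 2 : ℝ) : ℂ) * (t : ℂ) ^ s0 = -1 / 210 := by
  have hre : ∀ k : ℕ, (s0 + k).re = 1 + k := fun k => by simp [s0_re]
  have hne : ∀ k : ℕ, s0 + k ≠ 0 := fun k h => by
    have := hre k
    rw [h, Complex.zero_re] at this
    linarith [Nat.cast_nonneg (α := ℝ) k]
  have hc : ∀ k : ℕ, Continuous fun t : ℝ => (t : ℂ) ^ (s0 + k) := fun k =>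
    Complex.continuous_ofReal_cpow_const (by rw [hre]; positivity)
  have hi : ∀ k : ℕ, ∫ t in (0 : ℝ)..1, (t : ℂ) ^ (s0 + k) = 1 / (s0 + k + 1) := fun k => by
    rw [integral_cpow (Or.inl (by rw [hre]; linarith [Nat.cast_nonneg (α := ℝ) k]))]
    have := hne (k + 1)
    push_cast at this
    rw [← add_assoc] at this
    simp [this]
  have : ∀ t : ℝ, (((1 - t) ^ 2 / 2 : ℝ) : ℂ) * (t : ℂ) ^ s0 =
      1 / 2 * (t : ℂ) ^ (s0 + (0 : ℕ)) - (t : ℂ) ^ (s0 + (1 : ℕ)) +
        1 / 2 * (t : ℂ) ^ (s0 + (2 : ℕ)) := fun t => by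
    by_cases ht : (t : ℂ) = 0
    · have h0 := hne 0
      rw [ht, Complex.zero_cpow (hne 0), Complex.zero_cpow (hne 1), Complex.zero_cpow (hne 2),
        Complex.zero_cpow (by simpa using h0)]
      simp
    · simp only [Complex.cpow_add _ _ ht, Complex.cpow_natCast]
      push_cast
      ring
  simp only [this]
  rw [integral_add, integral_sub, integral_const_mul, integral_const_mul, hi, hi, hi]
  · have h1 := hne 1
    have h2 := hne 2
    have h3 := hne 3
    have hD := s0_D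
    push_cast at h1 h2 h3 ⊢
    rw [add_zero, show s0 + 1 + 1 = s0 + 2 by ring, show s0 + 2 + 1 = s0 + 3 by ring]
    field_simp
    linear_combination (2 : ℂ) * hD
  · exact ((hc 0).const_mul _).intervalIntegrable _ _
  · exact (hc 1).intervalIntegrable _ _
  · exact (((hc 0).const_mul _).sub (hc 1)).intervalIntegrable _ _
  · exact ((hc 2).const_mul _).intervalIntegrable _ _

noncomputable def f (x : ℝ) : ℝ := ((x : ℂ) ^ s0).re

lemma f_cont : Continuous f :=
  Complex.continuous_re.comp (Complex.continuous_ofReal_cpow_const (by rw [s0_re]; norm_num))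

lemma T_f {x : ℝ} (hx : 0 ≤ x) :
    ∫ t in (0 : ℝ)..1, (1 - t) ^ 2 / 2 * f (t * x) = -f x / 210 := by
  have hc : Continuous fun t : ℝ => (t : ℂ) ^ s0 :=
    Complex.continuous_ofReal_cpow_const (by rw [s0_re]; norm_num)
  have h1 : ∫ t in (0 : ℝ)..1, (1 - t) ^ 2 / 2 * f (t * x) =
      ∫ t in (0 : ℝ)..1, Complex.reCLM ((((1 - t) ^ 2 / 2 : ℝ) : ℂ) * (t : ℂ) ^ s0 * (x : ℂ) ^ s0) := by
    refine integral_congr fun t ht => ?_
    rw [Set.uIcc_of_le zero_le_one] at ht
    simp only [f, Complex.reCLM_apply]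
    rw [mul_assoc, Complex.re_ofReal_mul, Complex.ofReal_mul, Complex.mul_cpow_ofReal_nonneg ht.1 hx]
  rw [h1, Complex.reCLM.intervalIntegral_comp_comm
    (Continuous.intervalIntegrable (by fun_prop) _ _), integral_mul_const, ker_c]
  have : (-1 / 210 : ℂ) = ((-1 / 210 : ℝ) : ℂ) := by push_cast; ring
  rw [this, Complex.reCLM_apply, Complex.re_ofReal_mul, f]
  ring

lemma approx (ε : ℝ) (hε : 0 < ε) : ∃ (d : ℕ) (c : ℕ → ℝ), ∀ x ∈ Set.Icc (0 : ℝ) 1,
    |∑ n ∈ range d, c n * x ^ n - f x| ≤ ε ∧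
      |∑ n ∈ range d, c n / Dn n * x ^ n + f x / 210| ≤ ε := by
  obtain ⟨p, hp⟩ := exists_polynomial_near_of_continuousOn 0 1 f f_cont.continuousOn ε hε
  refine ⟨p.natDegree + 1, p.coeff, fun x hx => ⟨?_, ?_⟩⟩
  · rw [← Polynomial.eval_eq_sum_range]; exact (hp x hx).le
  · have hf := f_cont
    have h1 : ∑ n ∈ range (p.natDegree + 1), p.coeff n / Dn n * x ^ n =
        ∫ t in (0 : ℝ)..1, (1 - t) ^ 2 / 2 * p.eval (t * x) := by
      simp only [Polynomial.eval_eq_sum_range, mul_sum]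
      rw [integral_finsetSum fun i _ => Continuous.intervalIntegrable (by fun_prop) _ _]
      refine sum_congr rfl fun n _ => ?_
      have : ∀ t : ℝ, (1 - t) ^ 2 / 2 * (p.coeff n * (t * x) ^ n) =
          p.coeff n * x ^ n * ((1 - t) ^ 2 / 2 * t ^ n) := fun t => by ring
      simp only [this]
      rw [integral_const_mul, ker_nat]
      ring
    have h2 : f x / 210 = -∫ t in (0 : ℝ)..1, (1 - t) ^ 2 / 2 * f (t * x) := by
      rw [T_f hx.1]; ring
    rw [h1, h2, ← sub_eq_add_neg, ← integral_sub (Continuous.intervalIntegrable (by fun_prop) _ _)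
      (Continuous.intervalIntegrable (by fun_prop) _ _)]
    have h3 := norm_integral_le_of_norm_le_const (a := 0) (b := 1) (C := ε)
      (f := fun t : ℝ => (1 - t) ^ 2 / 2 * p.eval (t * x) - (1 - t) ^ 2 / 2 * f (t * x))
      fun t ht => by
        rw [Set.uIoc_of_le zero_le_one] at ht
        have := (hp (t * x) ⟨mul_nonneg ht.1.le hx.1, mul_le_one₀ ht.2 hx.1 hx.2⟩).le
        rw [← mul_sub, Real.norm_eq_abs, abs_mul, abs_of_nonneg (by positivity)]
        have h4 : (1 - t) ^ 2 / 2 ≤ 1 := by nlinarith [ht.1, ht.2]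
        nlinarith [abs_nonneg (p.eval (t * x) - f (t * x))]
    simpa using h3

/-- no bounded functional has these moments -/
lemma no_functional (lam : ℕ → ℝ)
    (hl : ∀ n, lam n * (1 / 36 + 35 / 6 / Dn n) = 1 / 72 + 71 / 12 / Dn n) (V : ℝ) (hV : 0 ≤ V)
    (h : ∀ (d : ℕ) (a : ℕ → ℝ) (M : ℝ), (∀ x ∈ Set.Icc (0 : ℝ) 1, |∑ n ∈ range d, a n * x ^ n| ≤ M) →
      |∑ n ∈ range d, a n * lam n| ≤ M * V) : False := by
  obtain ⟨d, c, hc⟩ := approx (1 / (500 * (V + 1))) (by positivity)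
  set ε := 1 / (500 * (V + 1)) with hε
  have h1 := h d (fun n => c n * (1 / 36 + 35 / 6 / Dn n)) (6 * ε) fun x hx => by
    obtain ⟨a, b⟩ := hc x hx
    have : ∑ n ∈ range d, c n * (1 / 36 + 35 / 6 / Dn n) * x ^ n =
        1 / 36 * ∑ n ∈ range d, c n * x ^ n + 35 / 6 * ∑ n ∈ range d, c n / Dn n * x ^ n := by
      rw [mul_sum, mul_sum, ← sum_add_distrib]
      exact sum_congr rfl fun n _ => by ring
    rw [this]
    rw [abs_le] at a b ⊢
    constructor <;> linarith [a.1, a.2, b.1, b.2]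
  have h2 : ∑ n ∈ range d, c n * (1 / 36 + 35 / 6 / Dn n) * lam n =
      1 / 72 * ∑ n ∈ range d, c n * 1 ^ n + 71 / 12 * ∑ n ∈ range d, c n / Dn n * 1 ^ n := by
    rw [mul_sum, mul_sum, ← sum_add_distrib]
    refine sum_congr rfl fun n _ => ?_
    rw [mul_assoc, mul_comm _ (lam n), hl]
    ring
  obtain ⟨a, b⟩ := hc 1 ⟨zero_le_one, le_rfl⟩
  have hf : f 1 = 1 := by simp [f]
  rw [h2] at h1
  rw [hf] at a b
  rw [abs_le] at a b h1
  have h3 : ε * V + ε = 1 / 500 := by rw [hε]; field_simp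
  have h4 : 0 < ε := by positivity
  linarith [a.1, a.2, b.1, b.2, h1.1, h1.2]

end Pool.Agent.H.MP_d888c7_an
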